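import Pool.Agent.Helper47.FLG.Pde

/-!
# Project FLG (MP_c98eff_gt), packet CHN: the chain

As NRD of `RFn` (`Pool/Agent/Helper7/RFn/NRD.lean`), started at `r + (B0/t) Id4 ∈ Kc θ_0`.
-/

namespace Pool.Agent.Helper47.FLG

open Finset Pool.Agent.Helper47.RFn

theorem g_CHN (hSTP : RFn.Goal_STP) (hCH : RFn.Goal_CH) (hEN : RFn.Goal_EN)
    (hRP1 : RFn.Goal_RP1) (hRP2 : RFn.Goal_RP2) (hRP3 : RFn.Goal_RP3)
    (hLN : RFn.Goal_LN) (hRIC : RFn.Goal_RIC) : G_CHN := by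
  intro n hn b0 B0 hb0 hb01 hB0 ε hε
  have hn0 : (4 : ℝ) ≤ n := by exact_mod_cast hn
  have hnn : (0 : ℝ) < n := by linarith
  set ε' := Real.sqrt ε / (2 * (n : ℝ) ^ 2) with hε'
  have hse : 0 < Real.sqrt ε := Real.sqrt_pos.2 hε
  have hε'0 : 0 < ε' := by positivity
  obtain ⟨a1, ha1, hE⟩ := hEN n hn ε' hε'0
  obtain ⟨c, hc, hch⟩ := hCH n hn b0 a1 hb0 hb01 ha1
  have hden : 0 < 8 * (n : ℝ) * (1 + 2 * ((n : ℝ) - 1) * (a1 + 1)) := by
    have : 0 < 2 * ((n : ℝ) - 1) * (a1 + 1) := by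
      refine mul_pos (by linarith) (by linarith)
    positivity
  obtain ⟨N, θ, hθ0, hθN, hgood, hstep⟩ :=
    hch (c / (8 * n * (1 + 2 * ((n : ℝ) - 1) * (a1 + 1)))) (div_pos hc hden)
  have hA : 0 < ((n : ℝ) - 1) * (2 ^ N * B0) :=
    mul_pos (by linarith) (mul_pos (by positivity) (by linarith))
  refine ⟨((n : ℝ) - 1) * (2 ^ N * B0), hA, ?_⟩
  intro T F hF hRF hBd hlam hK0
  -- the chain
  have hchain : ∀ k ≤ N, ∀ z (t : TI T) ι, Iso (F.nv z t) ι →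
      Kc (θ k).1 (θ k).2.1 (θ k).2.2
        (pull ι (F.rv z t) + ((2 : ℝ) ^ k * B0 / t) • Id4 n) := by
    intro k
    induction k with
    | zero =>
      intro _ z t ι hι
      have h1 := hK0 z t ι hι
      rw [hθ0, pow_zero, one_mul]
      exact h1
    | succ k ih =>
      intro hk z t ι hι
      have hk' : k < N := hk
      have hg := hgood (k + 1) hk
      have hB : (1 : ℝ) ≤ 2 ^ k * B0 := by
        have h2 : (1 : ℝ) ≤ 2 ^ k := one_le_pow₀ (by norm_num)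
        nlinarith
      have h1 := hSTP n hn (θ k).1 (θ k).2.1 (θ k).2.2 (θ (k + 1)).1 (θ (k + 1)).2.1
        (θ (k + 1)).2.2 c (a1 + 1) ((2 : ℝ) ^ k * B0) hg.1 hg.2.1 hB
        (hstep k hk') T F hF hRF hBd hlam (fun z t ι hι => ih hk'.le z t ι hι) z t ι hι
      have e : (2 : ℝ) ^ (k + 1) * B0 / (t : ℝ) = 2 * (2 ^ k * B0) / t := by rw [pow_succ]; ring
      rw [e]
      exact h1
  intro z t hAt
  have ht : (0 : ℝ) < t := t.2.1
  have hnu : ∑ i, F.nv z t i ^ 2 = 1 := by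
    have := congrArg (F.ev z t) hF.nunu
    rw [map_sum, map_one] at this
    simp only [map_pow] at this
    exact this
  obtain ⟨ι, hι⟩ := hRP1 n (F.nv z t) hnu
  have hend := hchain N le_rfl z t ι hι
  rw [hθN] at hend
  set lm := F.ev z t F.lam with hlm
  have hlm0 : 0 < lm := hlam z t
  obtain ⟨-, -, -, -, -, rHor, -⟩ := hRIC n T F hF
  have hHor := rHor z t
  obtain ⟨-, -, -, -, p5, -, -, -, -, -⟩ := hRP2 n (F.nv z t) ι (F.rv z t) hι hHor
  obtain ⟨q1, q2, -, -, q5, q6, q7, q8, -⟩ := hRP3 n (F.nv z t) ι hι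
  obtain ⟨-, -, -, -, l5, l6, -, -, -, l10, -⟩ := hLN n
  -- `lam` of the pull back
  have hlp : lam (pull ι (F.rv z t)) = lm := by
    rw [p5, hlm]
    unfold FB.lam FB.Ric FB.rv Ric
    rw [map_smul, map_sum]
    simp only [map_sum, smul_eq_mul]
    ring
  set ρ := pull ι (F.rv z t) + ((2 : ℝ) ^ N * B0 / t) • Id4 n with hρ
  have hlr : lam ρ = lm + ((2 : ℝ) ^ N * B0 / t) * ((n : ℝ) - 1) := by
    rw [hρ, l5, l6, l10 (by omega), hlp]
  obtain ⟨-, hend2⟩ := hE ρ hend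
  -- the tensor `E`
  set Et : T4 (n + 1) := fun i j k l => F.ev z t (F.E i j k l) with hEt
  have hEt' : Et = F.rv z t + (-(lm / ((n : ℝ) - 1))) • wdg (Pm (F.nv z t)) (Pm (F.nv z t)) := by
    funext i j k l
    have hdl : ∀ x y, F.ev z t (F.dl x y) = if x = y then (1 : ℝ) else 0 := by
      intro x y
      unfold FB.dl
      split_ifs <;> simp
    simp only [hEt, FB.E, FB.I, FB.P, map_sub, map_smul, map_mul, hdl, smul_eq_mul, Pi.add_apply,
      Pi.smul_apply, FB.rv, wdg, Pm, FB.nv, ← hlm]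
    ring
  have hEH : Hor (F.nv z t) Et := by
    rw [hEt']
    exact q7 _ _ hHor (q8 _ _ q2)
  have hEp : pull ι Et = ρ + (-(lam ρ / ((n : ℝ) - 1))) • Id4 n := by
    rw [hEt', q5, q6, q1, hlr, hρ]
    have h1 : ((n : ℝ) - 1) ≠ 0 := by linarith
    funext a b c d
    simp only [Pi.add_apply, Pi.smul_apply, smul_eq_mul]
    field_simp
    ring
  obtain ⟨-, -, -, -, -, -, -, -, -, s10, -⟩ := hRP2 n (F.nv z t) ι Et hι hEH
  have he2 : F.ev z t F.e2 = ∑ a, ∑ b, ∑ c, ∑ d, pull ι Et a b c d ^ 2 := by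
    rw [← s10]
    unfold FB.e2
    simp only [map_sum, map_pow, hEt]
  have hlr2 : lam ρ ≤ 2 * lm := by
    have h1 : ((2 : ℝ) ^ N * B0 / t) * ((n : ℝ) - 1) ≤ lm := by
      rw [div_mul_eq_mul_div, div_le_iff₀ ht]
      linarith
    rw [hlr]; linarith
  have hb : ∀ a b c d, pull ι Et a b c d ^ 2 ≤ (2 * ε' * lm) ^ 2 := by
    intro a b c d
    have h1 := hend2 a b c d
    have h2 : pull ι Et a b c d = ρ a b c d - lam ρ / ((n : ℝ) - 1) * Id4 n a b c d := by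
      rw [hEp]
      simp only [Pi.add_apply, Pi.smul_apply, smul_eq_mul]
      ring
    rw [h2, ← sq_abs]
    refine pow_le_pow_left₀ (abs_nonneg _) (h1.trans ?_) 2
    calc ε' * lam ρ ≤ ε' * (2 * lm) := mul_le_mul_of_nonneg_left hlr2 hε'0.le
      _ = 2 * ε' * lm := by ring
  rw [he2]
  calc ∑ a, ∑ b, ∑ c, ∑ d, pull ι Et a b c d ^ 2
      ≤ ∑ _a : Fin n, ∑ _b : Fin n, ∑ _c : Fin n, ∑ _d : Fin n, (2 * ε' * lm) ^ 2 :=
        Finset.sum_le_sum fun a _ => Finset.sum_le_sum fun b _ => Finset.sum_le_sum fun c _ =>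
          Finset.sum_le_sum fun d _ => hb a b c d
    _ = (n : ℝ) ^ 4 * (2 * ε' * lm) ^ 2 := by
        simp only [Finset.sum_const, Finset.card_univ, Fintype.card_fin, nsmul_eq_mul]
        ring
    _ = ε * lm ^ 2 := by
        rw [hε']
        have h3 : Real.sqrt ε ^ 2 = ε := Real.sq_sqrt hε.le
        have h4 : (n : ℝ) ^ 4 * (2 * (Real.sqrt ε / (2 * (n : ℝ) ^ 2)) * lm) ^ 2 =
            Real.sqrt ε ^ 2 * lm ^ 2 := by
          field_simp
        rw [h4, h3]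

end Pool.Agent.Helper47.FLG
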