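import Pool.Agent.Helper47.FLG.Fun

/-!
# Project FLG (MP_c98eff_gt), packet ODS: the function level version of SFO
-/

namespace Pool.Agent.Helper47.FLG

open Finset Pool.Agent.Helper47.RFn Pool.Agent.Helper73.RFn

theorem ods_one_mem (n : ℕ) : (one : Ix n → Ix n → ℝ) ∈ OO n := by
  intro a b
  unfold one
  rw [Finset.sum_eq_single a]
  · simp [eq_comm]
  · intro c _ hc
    simp [Ne.symm hc]
  · simp

theorem p_ODS (hSFO : G_SFO) (hINVF : G_INVF) (hMOD : RFn.Goal_MOD) (hFLB : RFn.Goal_FLB)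
    (hNRO : RFn.Goal_NRO) (hNIN : G_NIN) (hDCT : G_DCT) (hFJS : FjsStmt) : OdsStmt := by
  intro n hn hodd
  obtain ⟨CN, hCN, hInv⟩ := hINVF n hn
  obtain ⟨ε, hε, A1, hA1, hS⟩ := hSFO n hn hodd
  refine ⟨ε, hε, A1, hA1, ?_⟩
  intro T l0 A θ hT hl0 hfl hin t ht0 htT x hx hAx
  have hsub : Set.Ioo 0 T ⊆ Set.Ico 0 T := Set.Ioo_subset_Ico_self
  obtain ⟨M, hM⟩ := hMOD n T hT
  obtain ⟨hA, hθ, -⟩ := hFJS n T _ A θ hT hsub hfl
  have hA' : MJ T A := fun i j => ⟨(hA i j).cd, (hA i j).hom⟩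
  have hθ' : MJ T θ := fun i j => ⟨(hθ i j).cd, (hθ i j).hom⟩
  obtain ⟨-, hFull, hRF, hdic, -, -, -⟩ := hFLB n T hT M hM _ A θ hsub hfl hA' hθ'
  obtain ⟨hbdR, -, -, -, -, -⟩ := hNRO n T hT M hM A θ hfl hA' hθ'
  have hIni := hNIN n T hT M hM A θ hfl hA' hθ' l0 hin
  obtain ⟨hD1, hD2⟩ := hDCT n T hT M hM _ A θ hsub hfl hA' hθ'
  have hbd : ∀ i j k l, (M.flB A θ).Bd0 ((M.flB A θ).R i j k l) := fun i j k l => hbdR [] i j k l
  obtain ⟨hCone, hFG⟩ := hInv T (M.flB A θ) hFull hRF hbd l0 hl0 hIni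
  have hlam : ∀ z t, 0 < (M.flB A θ).ev z t (M.flB A θ).lam :=
    fun z t => lt_of_lt_of_le hl0 (hCone z t).1
  have hQP := hS T (M.flB A θ) hFull hRF hbd hlam hFG
  -- a point of the bundle over `x`
  obtain ⟨z, hz, -⟩ : ∃ z : M.Z, M.pt z = (‖x‖⁻¹ : ℝ) • x ∧ M.fr z = one := by
    refine hM.surj _ _ ?_ (ods_one_mem n)
    rw [norm_smul, norm_inv, norm_norm, inv_mul_cancel₀ (norm_ne_zero_iff.2 hx)]
  obtain ⟨e1, e2, e3⟩ := hD2 t ht0 htT x hx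
  have hlz : (M.flB A θ).ev z ⟨t, ht0, htT⟩ (M.flB A θ).lam = lamf (A t) (θ t) x := by
    rw [(hdic z ⟨t, ht0, htT⟩).1, hz]
    exact e3.symm
  have key := ((hD1 z ⟨t, ht0, htT⟩ (fun r => ∀ z' w' : Fin n → ℂ,
    ε * lamf (A t) (θ t) x * qf (Id4 n) z' w' ≤ qf r z' w')).1).1 (by
      intro ι hι
      have h := hQP z ⟨t, ht0, htT⟩ ι hι (by rw [hlz]; exact hAx)
      rw [hlz] at h
      exact h)
  intro ι hι
  have hι' : Iso (fun a => nfc (A t) a (M.pt z)) ι := by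
    have : (fun a => nfc (A t) a (M.pt z)) = fun a => nfc (A t) a x := by
      funext a
      rw [hz]
      exact (e1 a).symm
    rw [this]
    exact hι
  have h := key ι hι'
  have e2' : RT (A t) (θ t) (M.pt z) = RT (A t) (θ t) x := by
    rw [hz]
    exact e2.symm
  intro z' w'
  have h2 := h z' w'
  have h3 : pull ι (RT (A t) (θ t) (M.pt z)) = pull ι (RT (A t) (θ t) x) := by rw [e2']
  rw [← h3]
  exact h2

end Pool.Agent.Helper47.FLG
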